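import Mathlib

/-!
# MP_7d4bc7_co : Ramanujan `d`-regular graphs with `m(H) < 2 ^ d`

Q1 asks whether `m(H) = 2 ^ d` for every `d ≥ 4` and every Ramanujan `d`-regular graph `H`.  The
answer is no: for `d = 4` and `d = 5` a Ramanujan `d`-regular graph may have edge cuts with fewer
than `d` edges.

* `d = 4`: two disjoint copies of `K₅` minus one edge, corresponding ends of the missing edges
  joined.  The nontrivial eigenvalues are `(1 ± √33)/2`, `1`, `-1`, all of absolute value below
  `2√3`, and there is an edge cut with two edges, so `m(H) ≤ 4`.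
* `d = 5`: two disjoint copies of `K₆` minus two disjoint edges, corresponding ends of the missing
  edges joined.  The nontrivial eigenvalues are `1 ± 2√2`, `1`, `-1`, `-3`, and there is an edge
  cut with four edges, so `m(H) ≤ 16`.
-/

namespace Pool.Agent.Results.MP_7d4bc7_co.SmallCut

open Matrix symmDiff

open Classical in
/-- The real adjacency matrix of a simple graph. -/
noncomputable def adj {n : ℕ} (H : SimpleGraph (Fin n)) : Matrix (Fin n) (Fin n) ℝ :=
  H.adjMatrix ℝ

theorem adj_herm {n : ℕ} (H : SimpleGraph (Fin n)) : (adj H).IsHermitian := by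
  classical
  unfold adj
  rw [Matrix.IsHermitian, conjTranspose_eq_transpose_of_trivial]
  exact SimpleGraph.transpose_adjMatrix ..

/-- The adjacency eigenvalues of `H` in decreasing order: `eig H i` is `λ_{i+1}`. -/
noncomputable def eig {n : ℕ} (H : SimpleGraph (Fin n)) (i : Fin (Fintype.card (Fin n))) : ℝ :=
  (adj_herm H).eigenvalues₀ i

open Classical in
/-- `H` is `d`-regular and every nontrivial adjacency eigenvalue has absolute value at most
`2 √(d - 1)`.  The trivial eigenvalues are the first one and, for a bipartite graph, the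
last one. -/
def IsRamanujan {n : ℕ} (d : ℕ) (H : SimpleGraph (Fin n)) : Prop :=
  H.IsRegularOfDegree d ∧
    ∀ i : Fin (Fintype.card (Fin n)), (i : ℕ) ≠ 0 →
      ¬ (H.IsBipartite ∧ (i : ℕ) = n - 1) → |eig H i| ≤ 2 * √((d : ℝ) - 1)

/-- A connectivity code for `H`: a family of spanning subgraphs of `H` such that the symmetric
difference of any two distinct members is connected. -/
def IsCode {V : Type*} (H : SimpleGraph V) (𝒢 : Finset (SimpleGraph V)) : Prop :=
  (∀ F ∈ 𝒢, F ≤ H) ∧ ∀ F ∈ 𝒢, ∀ F' ∈ 𝒢, F ≠ F' → (F ∆ F').Connected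

/-- `m(H)`: the largest size of a connectivity code for `H`. -/
noncomputable def maxCode {V : Type*} (H : SimpleGraph V) : ℕ :=
  sSup {k | ∃ 𝒢 : Finset (SimpleGraph V), IsCode H 𝒢 ∧ 𝒢.card = k}

/-! ### Small edge cuts bound the code -/

/-- If every edge of `H` between `W` and its complement is in the finite set `C`, then `H` has no
connectivity code with more than `2 ^ |C|` members. -/
theorem maxCode_le {V : Type*} [DecidableEq V] (H : SimpleGraph V) (W : Set V) (C : Finset (V × V))
    {a b : V} (ha : a ∈ W) (hb : b ∉ W)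
    (hC : ∀ x ∈ W, ∀ y ∉ W, H.Adj x y → (x, y) ∈ C) : maxCode H ≤ 2 ^ C.card := by
  classical
  unfold maxCode
  apply csSup_le'
  rintro k ⟨𝒢, ⟨hsub, hconn⟩, rfl⟩
  rw [← Finset.card_powerset]
  refine Finset.card_le_card_of_injOn (fun F => C.filter (fun p => F.Adj p.1 p.2)) ?_ ?_
  · intro F _
    rw [Finset.mem_coe, Finset.mem_powerset]
    exact Finset.filter_subset _ _
  · intro F hF F' hF' hFF'
    by_contra hne
    have hc := hconn F hF F' hF' hne
    obtain ⟨p⟩ := hc.preconnected a b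
    obtain ⟨e, -, h1, h2⟩ := p.exists_boundary_dart W ha hb
    have hadj := e.adj
    have h3 : F.Adj e.fst e.snd ↔ F'.Adj e.fst e.snd := by
      by_cases hH : H.Adj e.fst e.snd
      · have hmem := hC _ h1 _ h2 hH
        have h4 := Finset.ext_iff.1 hFF' (e.fst, e.snd)
        simp only [Finset.mem_filter, hmem, true_and] at h4
        exact h4
      · exact ⟨fun h => absurd (hsub F hF h) hH, fun h => absurd (hsub F' hF' h) hH⟩
    have h5 : ∀ x y, (F ∆ F').Adj x y ↔
        (F.Adj x y ∧ ¬ F'.Adj x y) ∨ (F'.Adj x y ∧ ¬ F.Adj x y) := by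
      intro x y
      rw [symmDiff_def, SimpleGraph.sup_adj, SimpleGraph.sdiff_adj, SimpleGraph.sdiff_adj]
    have h6 := (h5 _ _).1 hadj
    tauto

/-! ### A criterion for the Ramanujan property -/

theorem eig_bound {n : ℕ} (A : Matrix (Fin n) (Fin n) ℝ) (hA : A.IsHermitian) (d B c : ℝ)
    (hd : ∀ i, ∑ j, A i j = d) (q : ℝ → ℝ)
    (hq : ∀ (μ : ℝ) (x : Fin n → ℝ), A *ᵥ x = μ • x → ∀ i, q μ * x i = c * ∑ j, x j)
    (hroot : ∀ μ, q μ = 0 → |μ| ≤ B) (hBd : B < d) :
    ∀ i : Fin (Fintype.card (Fin n)), (i : ℕ) ≠ 0 → |hA.eigenvalues₀ i| ≤ B := by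
  intro i hi
  set e : Fin (Fintype.card (Fin n)) ≃ Fin n := Fintype.equivOfCardEq (Fintype.card_fin _) with he
  have hev : ∀ k, hA.eigenvalues (e k) = hA.eigenvalues₀ k := by
    intro k
    simp only [Matrix.IsHermitian.eigenvalues, he, Equiv.symm_apply_apply]
  have hpos : 0 < Fintype.card (Fin n) := lt_of_le_of_lt (Nat.zero_le _) i.2
  -- every index is of one of two kinds
  have key : ∀ k, |hA.eigenvalues₀ k| ≤ B ∨
      (hA.eigenvalues₀ k = d ∧ ∃ t : ℝ, ∀ j, hA.eigenvectorBasis (e k) j = t) := by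
    intro k
    have h1 := hA.mulVec_eigenvectorBasis (e k)
    rw [hev k] at h1
    have h2 := hq _ _ h1
    by_cases h0 : q (hA.eigenvalues₀ k) = 0
    · exact Or.inl (hroot _ h0)
    · right
      have h3 : ∀ j, hA.eigenvectorBasis (e k) j =
          c * (∑ l, hA.eigenvectorBasis (e k) l) / q (hA.eigenvalues₀ k) := by
        intro j
        rw [eq_div_iff h0, mul_comm]
        exact h2 j
      refine ⟨?_, _, h3⟩
      set t := c * (∑ l, hA.eigenvectorBasis (e k) l) / q (hA.eigenvalues₀ k) with ht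
      have ht0 : t ≠ 0 := by
        intro h4
        have h5 : hA.eigenvectorBasis (e k) = 0 := by
          ext j
          rw [h3 j, h4]
          rfl
        have h6 := hA.eigenvectorBasis.norm_eq_one (e k)
        rw [h5, norm_zero] at h6
        exact zero_ne_one h6
      have h7 := congrFun h1 (e k)
      simp only [Matrix.mulVec, dotProduct, Pi.smul_apply, smul_eq_mul, h3] at h7
      rw [← Finset.sum_mul, hd] at h7
      exact (mul_right_cancel₀ ht0 h7).symm
  rcases key i with h | ⟨h1, t, ht⟩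
  · exact h
  · exfalso
    set z : Fin (Fintype.card (Fin n)) := ⟨0, hpos⟩ with hz
    have hzi : z ≠ i := by
      intro h
      apply hi
      rw [← h]
    have hle : hA.eigenvalues₀ i ≤ hA.eigenvalues₀ z :=
      hA.eigenvalues₀_antitone (Fin.mk_le_of_le_val (Nat.zero_le _))
    rcases key z with h | ⟨h2, s, hs⟩
    · have := le_abs_self (hA.eigenvalues₀ z)
      linarith
    · have horth := hA.eigenvectorBasis.orthonormal.2 (fun h => hzi (e.injective h) :
        e z ≠ e i)
      have hn1 := hA.eigenvectorBasis.norm_eq_one (e z)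
      have hn2 := hA.eigenvectorBasis.norm_eq_one (e i)
      have h10 : inner ℝ (hA.eigenvectorBasis (e z)) (hA.eigenvectorBasis (e i)) =
          (n : ℝ) * (s * t) := by
        simp only [PiLp.inner_apply, hs, ht]
        simp [mul_comm]
      have h11 : ∀ k (r : ℝ), (∀ j, hA.eigenvectorBasis (e k) j = r) →
          ‖hA.eigenvectorBasis (e k)‖ = 1 → (n : ℝ) * (r * r) = 1 := by
        intro k r hr hk
        have h12 : inner ℝ (hA.eigenvectorBasis (e k)) (hA.eigenvectorBasis (e k)) = (1 : ℝ) := by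
          rw [real_inner_self_eq_norm_sq, hk]; norm_num
        rw [← h12]
        simp only [PiLp.inner_apply, hr]
        simp [pow_two]
      have hs1 := h11 z s hs hn1
      have ht1 := h11 i t ht hn2
      have horth' : inner ℝ (hA.eigenvectorBasis (e z)) (hA.eigenvectorBasis (e i)) = (0 : ℝ) :=
        horth
      rw [h10] at horth'
      rcases mul_eq_zero.1 horth' with h | h
      · rw [h, zero_mul] at hs1
        exact zero_ne_one hs1
      · rcases mul_eq_zero.1 h with h | h
        · rw [h] at hs1; norm_num at hs1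
        · rw [h] at ht1; norm_num at ht1

/-! ### The two graphs -/

/-- Two copies `{0,…,4}`, `{5,…,9}` of `K₅` minus an edge (`01`, `56`), joined by `05`, `16`. -/
def rel4 (i j : Fin 10) : Bool :=
  decide (i ≠ j) &&
    ((decide (i.val / 5 = j.val / 5) && !(decide (i.val % 5 ≤ 1) && decide (j.val % 5 ≤ 1))) ||
      (decide (i.val / 5 ≠ j.val / 5) && decide (i.val % 5 = j.val % 5) && decide (i.val % 5 ≤ 1)))

/-- The `4`-regular example. -/
def H4 : SimpleGraph (Fin 10) where
  Adj i j := rel4 i j = true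
  symm := ⟨by decide +kernel⟩
  loopless := ⟨by decide +kernel⟩

/-- Two copies `{0,…,5}`, `{6,…,11}` of `K₆` minus the edges `01`, `23`, joined by the four edges
between `i` and `i + 6` for `i ≤ 3`. -/
def rel5 (i j : Fin 12) : Bool :=
  decide (i ≠ j) &&
    ((decide (i.val / 6 = j.val / 6) && !(decide (i.val % 6 ≤ 3) && decide (j.val % 6 ≤ 3) &&
        decide (i.val % 6 / 2 = j.val % 6 / 2))) ||
      (decide (i.val / 6 ≠ j.val / 6) && decide (i.val % 6 = j.val % 6) && decide (i.val % 6 ≤ 3)))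

/-- The `5`-regular example. -/
def H5 : SimpleGraph (Fin 12) where
  Adj i j := rel5 i j = true
  symm := ⟨by decide +kernel⟩
  loopless := ⟨by decide +kernel⟩

/-! ### Eigenvalues of the two graphs -/

/-- Integer adjacency matrices. -/
def B4 : Matrix (Fin 10) (Fin 10) ℤ := Matrix.of fun i j => if rel4 i j then 1 else 0

def B5 : Matrix (Fin 12) (Fin 12) ℤ := Matrix.of fun i j => if rel5 i j then 1 else 0

theorem B4_row : ∀ i, ∑ j, B4 i j = 4 := by decide +kernel

theorem B5_row : ∀ i, ∑ j, B5 i j = 5 := by decide +kernel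

theorem B4_poly : (B4 * B4 - 1) * (B4 * B4 - B4 - 8 • (1 : Matrix (Fin 10) (Fin 10) ℤ)) =
    Matrix.of fun _ _ => 6 := by decide +kernel

theorem B5_poly : (B5 * B5 - 1) * ((B5 + 3 • (1 : Matrix (Fin 12) (Fin 12) ℤ)) *
    (B5 * B5 - 2 • B5 - 7 • (1 : Matrix (Fin 12) (Fin 12) ℤ))) =
    Matrix.of fun _ _ => 128 := by decide +kernel

theorem adj_H4 : adj H4 = B4.map (Int.cast : ℤ → ℝ) := by
  classical
  ext i j
  by_cases h : rel4 i j = true
  · have h' : H4.Adj i j := h
    simp [adj, SimpleGraph.adjMatrix_apply, B4, h, h']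
  · have h' : ¬ H4.Adj i j := h
    simp [adj, SimpleGraph.adjMatrix_apply, B4, h, h']

theorem adj_H5 : adj H5 = B5.map (Int.cast : ℤ → ℝ) := by
  classical
  ext i j
  by_cases h : rel5 i j = true
  · have h' : H5.Adj i j := h
    simp [adj, SimpleGraph.adjMatrix_apply, B5, h, h']
  · have h' : ¬ H5.Adj i j := h
    simp [adj, SimpleGraph.adjMatrix_apply, B5, h, h']

theorem rowH4 (i : Fin 10) : ∑ j, adj H4 i j = 4 := by
  rw [adj_H4]
  have := B4_row i
  simp only [Matrix.map_apply]
  rw [← Int.cast_sum, this]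
  norm_num

theorem rowH5 (i : Fin 12) : ∑ j, adj H5 i j = 5 := by
  rw [adj_H5]
  have := B5_row i
  simp only [Matrix.map_apply]
  rw [← Int.cast_sum, this]
  norm_num

theorem polyH4 : (adj H4 * adj H4 - 1) * (adj H4 * adj H4 - adj H4 - 8 • 1) =
    Matrix.of fun _ _ => (6 : ℝ) := by
  have h := congrArg (Int.castRingHom ℝ).mapMatrix B4_poly
  simp only [map_mul, map_sub, map_one, map_nsmul] at h
  have h1 : (Int.castRingHom ℝ).mapMatrix B4 = adj H4 := by
    rw [adj_H4]; rfl
  rw [h1] at h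
  rw [h]
  ext i j
  simp

theorem polyH5 : (adj H5 * adj H5 - 1) * ((adj H5 + 3 • 1) *
    (adj H5 * adj H5 - 2 • adj H5 - 7 • 1)) = Matrix.of fun _ _ => (128 : ℝ) := by
  have h := congrArg (Int.castRingHom ℝ).mapMatrix B5_poly
  simp only [map_mul, map_sub, map_add, map_one, map_nsmul] at h
  have h1 : (Int.castRingHom ℝ).mapMatrix B5 = adj H5 := by
    rw [adj_H5]; rfl
  rw [h1] at h
  rw [h]
  ext i j
  simp

theorem constMulVec {n : ℕ} (c : ℝ) (x : Fin n → ℝ) (i : Fin n) :
    ((Matrix.of fun (_ _ : Fin n) => c) *ᵥ x) i = c * ∑ j, x j := by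
  simp [Matrix.mulVec, dotProduct, Finset.mul_sum]

theorem ram4 : ∀ i : Fin (Fintype.card (Fin 10)), (i : ℕ) ≠ 0 →
    |eig H4 i| ≤ 2 * √((4 : ℕ) - 1 : ℝ) := by
  have hs : (3.464 : ℝ) ≤ 2 * √((4 : ℕ) - 1 : ℝ) := by
    have : (1.732 : ℝ) ≤ √((4 : ℕ) - 1 : ℝ) := by
      apply Real.le_sqrt_of_sq_le
      norm_num
    calc (3.464 : ℝ) = 2 * 1.732 := by norm_num
      _ ≤ _ := mul_le_mul_of_nonneg_left this (by norm_num)
  have hs2 : 2 * √((4 : ℕ) - 1 : ℝ) < 4 := by
    have : √((4 : ℕ) - 1 : ℝ) < 2 := by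
      rw [Real.sqrt_lt' (by norm_num)]
      norm_num
    calc 2 * √((4 : ℕ) - 1 : ℝ) < 2 * 2 := mul_lt_mul_of_pos_left this (by norm_num)
      _ = 4 := by norm_num
  generalize 2 * √((4 : ℕ) - 1 : ℝ) = B at *
  refine eig_bound (adj H4) (adj_herm H4) 4 B 6 rowH4
    (fun μ => (μ * μ - 1) * (μ * μ - μ - 8)) ?_ ?_ hs2
  · intro μ x hx i
    rw [← constMulVec 6 x i, ← polyH4]
    have h2 : (adj H4 * adj H4) *ᵥ x = (μ * μ) • x := by
      rw [← Matrix.mulVec_mulVec, hx, Matrix.mulVec_smul, hx, smul_smul]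
    have h3 : (adj H4 * adj H4 - adj H4 - 8 • 1) *ᵥ x = (μ * μ - μ - 8) • x := by
      rw [Matrix.sub_mulVec, Matrix.sub_mulVec, h2, hx, Matrix.smul_mulVec, Matrix.one_mulVec]
      ext k
      simp only [Pi.sub_apply, Pi.smul_apply, smul_eq_mul]
      simp only [nsmul_eq_mul]
      push_cast
      ring
    rw [← Matrix.mulVec_mulVec, h3, Matrix.mulVec_smul, Matrix.sub_mulVec, h2, Matrix.one_mulVec]
    simp only [Pi.sub_apply, Pi.smul_apply, smul_eq_mul]
    ring
  · intro μ hμ
    have h34 : -3.4 ≤ μ ∧ μ ≤ 3.4 := by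
      rcases mul_eq_zero.1 hμ with h | h
      · constructor <;> nlinarith
      · constructor <;> nlinarith
    rw [abs_le]
    constructor <;> linarith [h34.1, h34.2]

theorem ram5 : ∀ i : Fin (Fintype.card (Fin 12)), (i : ℕ) ≠ 0 →
    |eig H5 i| ≤ 2 * √((5 : ℕ) - 1 : ℝ) := by
  have hs : √((5 : ℕ) - 1 : ℝ) = 2 := by
    rw [Real.sqrt_eq_iff_mul_self_eq_of_pos (by norm_num)]
    norm_num
  rw [hs]
  refine eig_bound (adj H5) (adj_herm H5) 5 _ 128 rowH5
    (fun μ => (μ * μ - 1) * ((μ + 3) * (μ * μ - 2 * μ - 7))) ?_ ?_ (by norm_num)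
  · intro μ x hx i
    rw [← constMulVec 128 x i, ← polyH5]
    have h2 : (adj H5 * adj H5) *ᵥ x = (μ * μ) • x := by
      rw [← Matrix.mulVec_mulVec, hx, Matrix.mulVec_smul, hx, smul_smul]
    have h3 : (adj H5 * adj H5 - 2 • adj H5 - 7 • 1) *ᵥ x = (μ * μ - 2 * μ - 7) • x := by
      rw [Matrix.sub_mulVec, Matrix.sub_mulVec, h2, Matrix.smul_mulVec, hx, Matrix.smul_mulVec,
        Matrix.one_mulVec]
      ext k
      simp only [Pi.sub_apply, Pi.smul_apply, smul_eq_mul]
      simp only [nsmul_eq_mul]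
      push_cast
      ring
    have h4 : (adj H5 + 3 • 1) *ᵥ x = (μ + 3) • x := by
      rw [Matrix.add_mulVec, hx, Matrix.smul_mulVec, Matrix.one_mulVec]
      ext k
      simp only [Pi.add_apply, Pi.smul_apply, smul_eq_mul]
      simp only [nsmul_eq_mul]
      push_cast
      ring
    rw [← Matrix.mulVec_mulVec, ← Matrix.mulVec_mulVec, h3, Matrix.mulVec_smul, h4,
      Matrix.mulVec_smul, Matrix.mulVec_smul, Matrix.sub_mulVec, h2, Matrix.one_mulVec]
    simp only [Pi.sub_apply, Pi.smul_apply, smul_eq_mul]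
    ring
  · intro μ hμ
    rw [abs_le]
    rcases mul_eq_zero.1 hμ with h | h
    · constructor <;> nlinarith
    · rcases mul_eq_zero.1 h with h | h
      · constructor <;> linarith
      · constructor <;> nlinarith

theorem reg4 : ∀ v, (Finset.univ.filter fun w => rel4 v w = true).card = 4 := by decide +kernel

theorem reg5 : ∀ v, (Finset.univ.filter fun w => rel5 v w = true).card = 5 := by decide +kernel

theorem ramanujan4 : IsRamanujan 4 H4 := by
  classical
  refine ⟨fun v => ?_, fun i hi _ => ram4 i hi⟩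
  rw [← reg4 v, ← SimpleGraph.card_neighborFinset_eq_degree]
  congr 1
  ext w
  simp only [SimpleGraph.mem_neighborFinset, Finset.mem_filter, Finset.mem_univ, true_and]
  rfl

theorem ramanujan5 : IsRamanujan 5 H5 := by
  classical
  refine ⟨fun v => ?_, fun i hi _ => ram5 i hi⟩
  rw [← reg5 v, ← SimpleGraph.card_neighborFinset_eq_degree]
  congr 1
  ext w
  simp only [SimpleGraph.mem_neighborFinset, Finset.mem_filter, Finset.mem_univ, true_and]
  rfl

theorem code4 : maxCode H4 ≤ 4 := by
  have h := maxCode_le H4 {i | i.val < 5} {(0, 5), (1, 6)} (a := 0) (b := 5)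
    (by decide) (by decide) (by
      have : ∀ x : Fin 10, x.val < 5 → ∀ y : Fin 10, ¬ y.val < 5 → rel4 x y = true →
        (x, y) ∈ ({(0, 5), (1, 6)} : Finset (Fin 10 × Fin 10)) := by decide +kernel
      exact this)
  have hc : ({(0, 5), (1, 6)} : Finset (Fin 10 × Fin 10)).card = 2 := by decide
  rw [hc] at h
  exact h

theorem code5 : maxCode H5 ≤ 16 := by
  have h := maxCode_le H5 {i | i.val < 6} {(0, 6), (1, 7), (2, 8), (3, 9)} (a := 0) (b := 6)
    (by decide) (by decide) (by
      have : ∀ x : Fin 12, x.val < 6 → ∀ y : Fin 12, ¬ y.val < 6 → rel5 x y = true →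
        (x, y) ∈ ({(0, 6), (1, 7), (2, 8), (3, 9)} : Finset (Fin 12 × Fin 12)) := by
          decide +kernel
      exact this)
  have hc : ({(0, 6), (1, 7), (2, 8), (3, 9)} : Finset (Fin 12 × Fin 12)).card = 4 := by decide
  rw [hc] at h
  exact h

/-- **Q1 is false.**  There is a Ramanujan `4`-regular graph (on 10 vertices) with `m(H) ≤ 4`, and
a Ramanujan `5`-regular graph (on 12 vertices) with `m(H) ≤ 16`; in particular it is not true that
`m(H) = 2 ^ d` for every `d ≥ 4` and every Ramanujan `d`-regular graph `H`, and it fails both for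
`d = 4` and for `d = 5`. -/
theorem result :
    (∃ H : SimpleGraph (Fin 10), IsRamanujan 4 H ∧ maxCode H ≤ 4) ∧
    (∃ H : SimpleGraph (Fin 12), IsRamanujan 5 H ∧ maxCode H ≤ 16) ∧
    ¬ ∀ d : ℕ, 4 ≤ d → ∀ n : ℕ, ∀ H : SimpleGraph (Fin n), IsRamanujan d H →
      maxCode H = 2 ^ d := by
  refine ⟨⟨H4, ramanujan4, code4⟩, ⟨H5, ramanujan5, code5⟩, fun h => ?_⟩
  have h1 := h 4 le_rfl 10 H4 ramanujan4
  have h2 := code4
  rw [h1] at h2
  norm_num at h2

end Pool.Agent.Results.MP_7d4bc7_co.SmallCut
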